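import Pool.Agent.V1157.GK.Defs
import Pool.Agent.V1157.FG.Defs

/-!
# Finite groups acting on motivic cohomology modulo constants: definitions
-/

open CategoryTheory AlgebraicGeometry

universe u v z

namespace Pool.Agent.V1157.MC

open Pool.Agent.H914 Pool.Agent.H914.VarClass Pool.Agent.H914.VarClass.Obj Pool.Agent.W492.BB
  Pool.Agent.V1157.GK

variable {k : Type u} [Field k] {𝒱 : VarClass k} {C : TheoryData.{u, v, 0} 𝒱 ℚ}

/-- The motivic cohomology of the base field, with the pull-backs to and the push-forwards from the
motivic cohomology `P(X)` of the varieties `X`. -/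
structure Base (P : KData.{u, v, z} C) where
  /-- the motivic cohomology of the base field -/
  pt : Type z
  [group : AddCommGroup pt]
  [module : Module ℚ pt]
  /-- pull-back to `X` -/
  up0 : ∀ X : 𝒱.Obj, pt → P.A X
  /-- push-forward from `X` -/
  down0 : ∀ X : 𝒱.Obj, P.A X → pt

attribute [instance] Base.group Base.module

variable {P : KData.{u, v, z} C} (B : Base P) (N : ∀ X : 𝒱.Obj, Submodule ℚ (P.A X))

/-- The rules for the motivic cohomology `P(X)` (the sum of the higher Chow groups
`CH^i(X, m)_ℚ` for fixed `m`) as a module over the ring of cycles: functoriality, projection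
formulas and base change. `N X` is the subspace of `P(X)` of the classes of a fixed codimension
`j`. -/
structure IsMotivic : Prop where
  isModule : IsModule P
  isFunctor : IsFunctor P
  hasProjection : HasProjection P
  up0_comp : ∀ {X Y : 𝒱.Obj} (f : X ⟶ Y) (c : B.pt), P.pull f (B.up0 Y c) = B.up0 X c
  base_change : ∀ (X Y : 𝒱.Obj) (t : P.A X),
    P.push (snd X Y) (P.pull (fst X Y) t) = B.up0 Y (B.down0 X t)
  pull_mem : ∀ {X Y : 𝒱.Obj} (f : X ⟶ Y) (t : P.A Y), t ∈ N Y → P.pull f t ∈ N X

/-- The space of constant classes on `X`: the subspace of `P(X)` generated by the products of cycles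
on `X` with the motivic cohomology of the base field. -/
def const (X : 𝒱.Obj) : Submodule ℚ (P.A X) :=
  Submodule.span ℚ {s : P.A X | ∃ (a : C.A X) (c : B.pt), s = P.times a (B.up0 X c)}

/-- The class `g_* t = (g⁻¹)^* t`, for an action `α` of the group `G` on `X`. -/
def mv {G : Type} [Group G] {X : 𝒱.Obj} (α : G →* End X) (g : G) (t : P.A X) : P.A X :=
  P.pull (α g⁻¹ : X ⟶ X) t

variable (n : ℕ)

/-- All the classes in `N X` on the varieties of dimension `n` are constant. -/
def AllConstant : Prop := ∀ (X : 𝒱.Obj) (t : P.A X), X.dim = n → t ∈ N X → t ∈ const B X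

/-- For every action of the finite group `G` on a variety `X` of dimension `n` the element `f` of
the group algebra `ℚ[G]` has rank at most `D` on the classes in `N X` modulo constant classes. -/
def RankAtMost {G : Type} [Group G] [Fintype G] (f : G → ℚ) (D : ℕ) : Prop :=
  ∀ (X : 𝒱.Obj) (α : G →* End X) (t : Fin (D + 1) → P.A X), X.dim = n → (∀ i, t i ∈ N X) →
    ∃ c : Fin (D + 1) → ℚ, c ≠ 0 ∧ ∑ i, c i • ∑ g, f g • mv α g (t i) ∈ const B X

/-- Finite groups acting on varieties `X` of dimension `n` act on the classes in `N X` modulo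
constant classes through abelian quotients. -/
def ActAbelian : Prop :=
  ∀ (G : Type) [Group G] [Finite G] (X : 𝒱.Obj) (α : G →* End X) (g h : G) (t : P.A X),
    X.dim = n → t ∈ N X → mv α (g * h) t - mv α (h * g) t ∈ const B X

/-- Elements `g 1, …, g d` of finite groups acting on varieties `X` of dimension `n` satisfy, on the
classes in `N X` modulo constant classes, the identity `∑ c(σ) g_{σ(1)} g_{σ(2)} ⋯ g_{σ(d)} = 0`,
the sum over all permutations `σ`. -/
def ActIdentity (d : ℕ) (c : Equiv.Perm (Fin d) → ℚ) : Prop :=
  ∀ (G : Type) [Group G] [Finite G] (X : 𝒱.Obj) (α : G →* End X) (g : Fin d → G) (t : P.A X),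
    X.dim = n → t ∈ N X → ∑ σ, c σ • mv α (List.ofFn fun i => g (σ i)).prod t ∈ const B X

end Pool.Agent.V1157.MC
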