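import Pool.Agent.V1157.MC.Defs
import Pool.Agent.V1157.FG.Core
import Pool.Agent.V1157.RC.Base

/-!
# Finite groups acting on motivic cohomology modulo constants
-/

open CategoryTheory AlgebraicGeometry

universe u v z

namespace Pool.Agent.V1157.MC

open Pool.Agent.H914 Pool.Agent.H914.VarClass Pool.Agent.H914.VarClass.Obj Pool.Agent.W492.BB
  Pool.Agent.W550.Corr Pool.Agent.TH133 Pool.Agent.Y148.BB Pool.Agent.V1157.GK
open Pool.Agent.V1157.FG (HasEquivariantPower EP exists_ep core exists_words sum_words words_ne)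
open Pool.Agent.V1157.RC (pow_eq_sum)

set_option linter.unusedSectionVars false

variable {k : Type u} [Field k] {𝒱 : VarClass k} {C : TheoryData.{u, v, 0} 𝒱 ℚ}
  [hC : IsChowProj C] {n : ℕ} {P : KData.{u, v, z} C} {B : Base P}
  {N : ∀ X : 𝒱.Obj, Submodule ℚ (P.A X)}

section laws

variable (hP : IsMotivic B N) {X Y Z : 𝒱.Obj}
include hP

lemma one_mul' (t : P.A X) : P.mul 1 t = t := hP.isModule.one_mul t

lemma mul_mul' (a b : C.A X) (t : P.A X) : P.mul (C.mul a b) t = P.mul a (P.mul b t) :=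
  hP.isModule.mul_mul a b t

lemma mul_swap' (a b : C.A X) (t : P.A X) : P.mul a (P.mul b t) = P.mul b (P.mul a t) :=
  hP.isModule.mul_swap a b t

lemma up_comp' (f : X ⟶ Y) (g : Y ⟶ Z) (t : P.A Z) : P.up (f ≫ g) t = P.up f (P.up g t) :=
  hP.isFunctor.up_comp f g t

lemma down_comp' (f : X ⟶ Y) (g : Y ⟶ Z) (t : P.A X) :
    P.down (f ≫ g) t = P.down g (P.down f t) := hP.isFunctor.down_comp f g t

lemma up_mul' (f : X ⟶ Y) (a : C.A Y) (t : P.A Y) :
    P.up f (P.mul a t) = P.mul (C.up f a) (P.up f t) := hP.hasProjection.up_mul f a t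

lemma proj₁ (f : X ⟶ Y) (a : C.A Y) (t : P.A X) :
    P.down f (P.mul (C.up f a) t) = P.mul a (P.down f t) := hP.hasProjection.proj f a t

lemma proj₂ (f : X ⟶ Y) (a : C.A X) (t : P.A Y) :
    P.down f (P.mul a (P.up f t)) = P.mul (C.down f a) t := hP.hasProjection.proj' f a t

lemma point' (t : P.A X) : P.down (snd X Y) (P.up (fst X Y) t) = B.up0 Y (B.down0 X t) :=
  hP.base_change X Y t

lemma const_down (f : X ⟶ Y) {s : P.A X} (hs : s ∈ const B X) : P.down f s ∈ const B Y := by
  induction hs using Submodule.span_induction with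
  | mem s h =>
    obtain ⟨a, c, rfl⟩ := h
    refine Submodule.subset_span ⟨C.down f a, c, ?_⟩
    rw [← hP.up0_comp f c]
    exact proj₂ hP f a (B.up0 Y c)
  | zero => rw [map_zero]; exact Submodule.zero_mem _
  | add x y _ _ hx hy => rw [map_add]; exact Submodule.add_mem _ hx hy
  | smul q x _ hx => rw [map_smul]; exact Submodule.smul_mem _ q hx

lemma const_up (f : X ⟶ Y) {s : P.A Y} (hs : s ∈ const B Y) : P.up f s ∈ const B X := by
  induction hs using Submodule.span_induction with
  | mem s h =>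
    obtain ⟨a, c, rfl⟩ := h
    refine Submodule.subset_span ⟨C.up f a, c, ?_⟩
    rw [← hP.up0_comp f c]
    exact up_mul' hP f a (B.up0 Y c)
  | zero => rw [map_zero]; exact Submodule.zero_mem _
  | add x y _ _ hx hy => rw [map_add]; exact Submodule.add_mem _ hx hy
  | smul q x _ hx => rw [map_smul]; exact Submodule.smul_mem _ q hx

lemma down_up {V S : 𝒱.Obj} {f : V ⟶ S} {κ : ℚ} (hf : C.down f 1 = κ • (1 : C.A S))
    (t : P.A S) : P.down f (P.up f t) = κ • t := by
  have h1 := proj₂ hP f 1 t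
  rw [one_mul' hP, hf, map_smul, LinearMap.smul_apply, one_mul' hP] at h1
  exact h1

lemma down_up_ne {V S : 𝒱.Obj} {f g : V ⟶ S} {a : C.A S} {c : ℚ}
    (h : C.down (Obj.lift f g) 1 = c • (C.up (fst S S) a + C.up (snd S S) a) ^ n) (t : P.A S) :
    P.down g (P.up f t) ∈ const B S := by
  have e1 : P.down g (P.up f t) =
      P.down (snd S S) (P.mul (C.down (Obj.lift f g) 1) (P.up (fst S S) t)) := by
    rw [← proj₂ hP, one_mul' hP, ← up_comp' hP, ← down_comp' hP]
    simp
  rw [e1, h, pow_eq_sum, map_smul, LinearMap.smul_apply, map_smul, map_sum,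
    LinearMap.sum_apply, map_sum]
  refine Submodule.smul_mem _ _ (Submodule.sum_mem _ fun j _ => ?_)
  rw [map_smul, LinearMap.smul_apply, map_smul]
  have e2 : C.ext (a ^ j) (a ^ (n - j)) =
      C.mul (C.up (fst S S) (a ^ j)) (C.up (snd S S) (a ^ (n - j))) := rfl
  rw [e2, mul_mul' hP, mul_swap' hP, proj₁ hP, ← up_mul' hP, point' hP]
  exact Submodule.smul_mem _ _ (Submodule.subset_span ⟨_, _, rfl⟩)

end laws

/-- **If an element of the group algebra of a finite group has bounded rank on motivic cohomology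
modulo constants, then all classes are constant.** -/
theorem constant_of_rank (hN : IsMotivic B N) {G : Type} [Group G] [Fintype G]
    (hP : ∀ (M : ℕ) (S : 𝒱.Obj), S.dim = n → HasEquivariantPower C n G M S) {f : G → ℚ}
    (hf : f ≠ 0) {D : ℕ} (hD : RankAtMost B N n f D) : AllConstant B N n := by
  intro S t hS ht
  obtain ⟨V, α, p, a, b, κ, h⟩ := exists_ep hS (hP (D + 1) S hS)
  obtain ⟨c, hc, hc2⟩ := hD V α (fun m => P.up (p 1 m) t) h.dimV
    (fun m => hN.pull_mem (p 1 m) t ht)
  refine core (M := D + 1) (fun g m => P.down (p g m)) (const B V) (const B S)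
    (fun g m v hv => const_down hN _ hv) hf (fun g m => P.up (p g m) t) (t := t)
    (fun g g' m m' hne => ?_) (κ := κ) h.hκ (fun g m => down_up hN (h.pp g m m.2) t) hc ?_
  · exact down_up_ne hN (h.pq g g' m m.2 m' m'.2 (fun e => hne (by
      rw [Prod.mk.injEq] at e ⊢
      exact ⟨e.1, Fin.ext e.2⟩))) t
  · have e1 : ∀ (g : G) (m : Fin (D + 1)), mv α g (P.up (p 1 m) t) = P.up (p g m) t := by
      intro g m
      have h1 := up_comp' hN (α g⁻¹ : V ⟶ V) (p 1 m) t
      rw [h.act _ _ m m.2, inv_inv, mul_one] at h1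
      exact h1.symm
    simp only [e1] at hc2
    exact hc2

lemma mv_const (hN : IsMotivic B N) {X : 𝒱.Obj} {G : Type} [Group G] (α : G →* End X) (g : G)
    {t : P.A X} (ht : t ∈ const B X) : mv α g t ∈ const B X := const_up hN _ ht

theorem main (hN : IsMotivic B N)
    (hP : ∀ (G : Type) [Group G] [Finite G] (M : ℕ) (S : 𝒱.Obj), S.dim = n →
      HasEquivariantPower C n G M S) :
    List.TFAE [AllConstant B N n,
      ∃ (G : Type) (_ : Group G) (_ : Fintype G) (f : G → ℚ) (D : ℕ), f ≠ 0 ∧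
        RankAtMost B N n f D,
      ActAbelian B N n,
      ∃ (d : ℕ) (c : Equiv.Perm (Fin d) → ℚ), c ≠ 0 ∧ ActIdentity B N n d c] := by
  classical
  tfae_have 1 → 2 := by
    intro h
    refine ⟨Unit, inferInstance, inferInstance, fun _ => 1, 0, ?_, ?_⟩
    · intro h0
      exact one_ne_zero (congrFun h0 ())
    · intro X α t hX ht
      refine ⟨fun _ => 1, fun h0 => one_ne_zero (congrFun h0 0), ?_⟩
      exact Submodule.sum_mem _ fun i _ => Submodule.smul_mem _ _
        (Submodule.sum_mem _ fun g _ => Submodule.smul_mem _ _ (mv_const hN α g (h X _ hX (ht i))))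
  tfae_have 2 → 1 := by
    rintro ⟨G, _, _, f, D, hf, hD⟩
    exact constant_of_rank hN (hP G) hf hD
  tfae_have 1 → 3 := by
    intro h G _ _ X α g g' t hX ht
    exact Submodule.sub_mem _ (mv_const hN α _ (h X t hX ht)) (mv_const hN α _ (h X t hX ht))
  tfae_have 3 → 2 := by
    intro h
    refine ⟨Equiv.Perm (Fin 3), inferInstance, inferInstance,
      fun x => (if Equiv.swap 0 1 * Equiv.swap 1 2 = x then 1 else 0) -
        (if Equiv.swap 1 2 * Equiv.swap 0 1 = x then 1 else 0), 0, ?_, ?_⟩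
    · intro h0
      have h1 := congrFun h0 (Equiv.swap 0 1 * Equiv.swap 1 2)
      simp only [Pi.zero_apply] at h1
      rw [if_pos trivial, if_neg (by decide), sub_zero] at h1
      exact one_ne_zero h1
    · intro X α t hX ht
      refine ⟨fun _ => 1, fun h0 => one_ne_zero (congrFun h0 0), ?_⟩
      refine Submodule.sum_mem _ fun i _ => Submodule.smul_mem _ _ ?_
      simp_rw [sub_smul, ite_smul, one_smul, zero_smul]
      rw [Finset.sum_sub_distrib, Finset.sum_ite_eq, Finset.sum_ite_eq,
        if_pos (Finset.mem_univ _), if_pos (Finset.mem_univ _)]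
      exact h (Equiv.Perm (Fin 3)) X α _ _ (t i) hX (ht i)
  tfae_have 1 → 4 := by
    intro h
    refine ⟨0, fun _ => 1, fun h0 => one_ne_zero (congrFun h0 1), ?_⟩
    intro G _ _ X α g t hX ht
    exact Submodule.sum_mem _ fun σ _ => Submodule.smul_mem _ _ (mv_const hN α _ (h X t hX ht))
  tfae_have 4 → 2 := by
    rintro ⟨d, c, hc, h⟩
    obtain ⟨G, _, _, g, hg⟩ := exists_words d
    refine ⟨G, inferInstance, inferInstance,
      fun x => ∑ σ, if (List.ofFn fun i => g (σ i)).prod = x then c σ else 0, 0, words_ne hg hc, ?_⟩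
    intro X α t hX ht
    refine ⟨fun _ => 1, fun h0 => one_ne_zero (congrFun h0 0), ?_⟩
    refine Submodule.sum_mem _ fun i _ => Submodule.smul_mem _ _ ?_
    rw [sum_words (fun σ : Equiv.Perm (Fin d) => (List.ofFn fun i => g (σ i)).prod) c
      (fun x => mv α x (t i))]
    exact h G X α g (t i) hX (ht i)
  tfae_finish

end Pool.Agent.V1157.MC
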